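import Mathlib
import Pool.Agent.Lib.MP_ae5b4e_an_hopf.Total

/-!
# MP_ae5b4e_an, project AT (almost totally integrable), module HopS

The Hopf inequality on the leaves of a normalized system without a condition at the inner end
(the text of `hopf/System.lean`, `hopf/Mean.lean`, `hopf/Hopf.lean` for the structure `SSys`).
-/

noncomputable section

namespace Pool.Agent.MP_ae5b4e_an_ALT

open Set Filter Topology Real MeasureTheory intervalIntegral
open scoped ContDiff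
open Pool.Agent.MP_ae5b4e_an_total (integral_comp_tau surjective_of_shift)
open Pool.Agent.MP_ae5b4e_an_hopf
open Pool.Agent.MP_ae5b4e_an_hopf.Sys (nt nc RR RM df Yt)

/-- A smooth normalized family of curves that are invariant under the (projective) dual billiard
map; nothing is assumed about the limit of the curves at the parameter `1`. -/
structure SSys (T : ℝ) (Γ : ℝ → Fin 3 → ℝ) (U : ℝ → ℝ → ℝ) : Prop where
  curve : Curve T Γ
  smooth : ContDiffOn ℝ ∞ (fun q : ℝ × ℝ => U q.1 q.2) (Ioo 0 1 ×ˢ univ)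
  per : ∀ c ∈ Ioo (0:ℝ) 1, ∀ t, U c (t + T) = U c t
  mono : ∀ c ∈ Ioo (0:ℝ) 1, ∀ t, deriv (fun r => U r t) c < 0
  lim0 : ∀ t, Tendsto (fun c => U c t) (𝓝[>] 0) atTop
  feq : ∀ c ∈ Ioo (0:ℝ) 1, ∀ t s, t < s → s < t + T → L1 Γ t s = -(U c t) → U c s = L1 Γ s t

variable {Γ : ℝ → Fin 3 → ℝ} {T : ℝ} {U : ℝ → ℝ → ℝ}

namespace SSys

variable (h : SSys T Γ U)
include h

lemma T_pos : 0 < T := h.curve.T_pos

lemma contDiffOn : ContDiffOn ℝ ∞ (Uf U) (Ioo 0 1 ×ˢ univ) := h.smooth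

lemma contDiffAt {q : ℝ × ℝ} (hq : q.1 ∈ Ioo (0:ℝ) 1) : ContDiffAt ℝ ∞ (Uf U) q :=
  h.contDiffOn.contDiffAt (isOpen_dom.mem_nhds ⟨hq, mem_univ _⟩)

lemma hasFDerivAt {q : ℝ × ℝ} (hq : q.1 ∈ Ioo (0:ℝ) 1) :
    HasFDerivAt (Uf U) (fderiv ℝ (Uf U) q) q :=
  ((h.contDiffAt hq).differentiableAt (by simp)).hasFDerivAt

lemma continuousOn_Uc : ContinuousOn (Uc U) (Ioo 0 1 ×ˢ univ) :=
  (h.contDiffOn.continuousOn_fderiv_of_isOpen isOpen_dom (by simp)).clm_apply continuousOn_const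

lemma continuousOn_Ut : ContinuousOn (Ut U) (Ioo 0 1 ×ˢ univ) :=
  (h.contDiffOn.continuousOn_fderiv_of_isOpen isOpen_dom (by simp)).clm_apply continuousOn_const

lemma continuousOn_Uf : ContinuousOn (Uf U) (Ioo 0 1 ×ˢ univ) := h.contDiffOn.continuousOn

/-- chain rule along a curve -/
lemma hasDerivAt_comp {γ₁ γ₂ : ℝ → ℝ} {a b t : ℝ} (h1 : HasDerivAt γ₁ a t)
    (h2 : HasDerivAt γ₂ b t) (hm : γ₁ t ∈ Ioo (0:ℝ) 1) :
    HasDerivAt (fun s => Uf U (γ₁ s, γ₂ s)) (a * Uc U (γ₁ t, γ₂ t) + b * Ut U (γ₁ t, γ₂ t)) t := by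
  have h3 := (h.hasFDerivAt (q := (γ₁ t, γ₂ t)) hm).comp_hasDerivAt t (h1.prodMk h2)
  refine h3.congr_deriv ?_
  have e : ((a, b) : ℝ × ℝ) = a • ((1, 0) : ℝ × ℝ) + b • ((0, 1) : ℝ × ℝ) := by
    ext <;> simp
  rw [e, map_add, map_smul, map_smul]
  rfl

lemma hasDerivAt_c {c : ℝ} (hc : c ∈ Ioo (0:ℝ) 1) (t : ℝ) :
    HasDerivAt (fun r => Uf U (r, t)) (Uc U (c, t)) c := by
  have := h.hasDerivAt_comp (hasDerivAt_id c) (hasDerivAt_const c t) hc
  simpa using this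

lemma hasDerivAt_t {c : ℝ} (hc : c ∈ Ioo (0:ℝ) 1) (t : ℝ) :
    HasDerivAt (fun r => Uf U (c, r)) (Ut U (c, t)) t := by
  have := h.hasDerivAt_comp (hasDerivAt_const t c) (hasDerivAt_id t) hc
  simpa using this

lemma Uf_per {c : ℝ} (hc : c ∈ Ioo (0:ℝ) 1) (t : ℝ) : Uf U (c, t + T) = Uf U (c, t) :=
  h.per c hc t

lemma Uc_per {c : ℝ} (hc : c ∈ Ioo (0:ℝ) 1) (t : ℝ) : Uc U (c, t + T) = Uc U (c, t) := by
  have h1 := h.hasDerivAt_c hc (t + T)
  have h2 := h.hasDerivAt_c hc t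
  refine h1.unique (h2.congr_of_eventuallyEq ?_)
  filter_upwards [isOpen_Ioo.mem_nhds hc] with r hr
  exact h.Uf_per hr t

lemma Ut_per {c : ℝ} (hc : c ∈ Ioo (0:ℝ) 1) (t : ℝ) : Ut U (c, t + T) = Ut U (c, t) := by
  have h1 := (h.hasDerivAt_t hc (t + T)).comp_add_const t T
  have h2 := h.hasDerivAt_t hc t
  refine h1.unique (h2.congr_of_eventuallyEq ?_)
  exact Filter.Eventually.of_forall fun r => h.Uf_per hc r

lemma Uc_neg {c : ℝ} (hc : c ∈ Ioo (0:ℝ) 1) (t : ℝ) : Uc U (c, t) < 0 := by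
  have h1 := (h.hasDerivAt_c hc t).deriv
  rw [← h1]
  exact h.mono c hc t

/-- monotonicity in the parameter -/
lemma strictAnti (t : ℝ) : StrictAntiOn (fun c => Uf U (c, t)) (Ioo 0 1) := by
  refine strictAntiOn_of_deriv_neg (convex_Ioo 0 1) ?_ ?_
  · intro c hc
    exact (h.hasDerivAt_c hc t).continuousAt.continuousWithinAt
  · intro c hc
    rw [interior_Ioo] at hc
    rw [(h.hasDerivAt_c hc t).deriv]
    exact h.Uc_neg hc t

lemma nxt_spec (c t : ℝ) : t < nxt Γ T U c t ∧ nxt Γ T U c t < t + T ∧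
    L1 Γ t (nxt Γ T U c t) = -(U c t) := h.curve.nx_spec t (U c t)

lemma nxt_per {c : ℝ} (hc : c ∈ Ioo (0:ℝ) 1) (t : ℝ) :
    nxt Γ T U c (t + T) = nxt Γ T U c t + T := by
  unfold nxt
  rw [h.per c hc, h.curve.nx_per]

lemma feq' {c : ℝ} (hc : c ∈ Ioo (0:ℝ) 1) (t : ℝ) :
    Uf U (c, nxt Γ T U c t) = L1 Γ (nxt Γ T U c t) t :=
  h.feq c hc t _ (h.nxt_spec c t).1 (h.nxt_spec c t).2.1 (h.nxt_spec c t).2.2

lemma hasDerivAt_nxt_t {c : ℝ} (hc : c ∈ Ioo (0:ℝ) 1) (t : ℝ) :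
    HasDerivAt (fun t => nxt Γ T U c t) (nt Γ T U c t) t := by
  refine (h.curve.hasDerivAt_nx_comp (hasDerivAt_id t) (h.hasDerivAt_t hc t)).congr_deriv ?_
  unfold nt nxt
  simp only [id, mul_one]
  rfl

lemma hasDerivAt_nxt_c {c : ℝ} (hc : c ∈ Ioo (0:ℝ) 1) (t : ℝ) :
    HasDerivAt (fun c => nxt Γ T U c t) (nc Γ T U c t) c := by
  refine (h.curve.hasDerivAt_nx_comp (hasDerivAt_const c t) (h.hasDerivAt_c hc t)).congr_deriv ?_
  unfold nc nxt
  simp only [mul_zero, zero_add]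
  rfl

lemma nc_pos {c : ℝ} (hc : c ∈ Ioo (0:ℝ) 1) (t : ℝ) : 0 < nc Γ T U c t := by
  obtain ⟨a1, a2, -⟩ := h.nxt_spec c t
  exact div_pos (by linarith [h.Uc_neg hc t]) (h.curve.KK_pos_right a1 a2)

/-- the common factor in the derivatives of the functional equation -/
lemma eq_c {c : ℝ} (hc : c ∈ Ioo (0:ℝ) 1) (t : ℝ) :
    (Ut U (c, nxt Γ T U c t) - L11 Γ (nxt Γ T U c t) t) *
      nc Γ T U c t = -Uc U (c, nxt Γ T U c t) := by
  obtain ⟨a1, a2, -⟩ := h.nxt_spec c t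
  have hn' := (h.curve.dd_pos_left a1 a2).ne'
  have h1 := h.hasDerivAt_comp (hasDerivAt_id c) (h.hasDerivAt_nxt_c hc t) hc
  have h2 := h.curve.hasDerivAt_L1_comp (h.hasDerivAt_nxt_c hc t) (hasDerivAt_const c t) hn'
  have h3 : (fun r => Uf U (id r, nxt Γ T U r t)) =ᶠ[𝓝 c]
      fun r => L1 Γ (nxt Γ T U r t) t := by
    filter_upwards [isOpen_Ioo.mem_nhds hc] with r hr
    exact h.feq' hr t
  have h4 := h1.unique (h2.congr_of_eventuallyEq h3)
  simp only [id] at h4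
  linarith

lemma eq_t {c : ℝ} (hc : c ∈ Ioo (0:ℝ) 1) (t : ℝ) :
    (Ut U (c, nxt Γ T U c t) - L11 Γ (nxt Γ T U c t) t) *
      nt Γ T U c t = KK Γ (nxt Γ T U c t) t := by
  obtain ⟨a1, a2, -⟩ := h.nxt_spec c t
  have hn' := (h.curve.dd_pos_left a1 a2).ne'
  have h1 := h.hasDerivAt_comp (hasDerivAt_const t c) (h.hasDerivAt_nxt_t hc t) hc
  have h2 := h.curve.hasDerivAt_L1_comp (h.hasDerivAt_nxt_t hc t) (hasDerivAt_id t) hn'
  have h3 : (fun r => Uf U (c, nxt Γ T U c r)) =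
      fun r => L1 Γ (nxt Γ T U c r) (id r) := by
    funext r
    exact h.feq' hc r
  rw [h3] at h1
  have h4 := h1.unique h2
  simp only [id] at h4
  linarith

/-- the invariant density -/
lemma invariance {c : ℝ} (hc : c ∈ Ioo (0:ℝ) 1) (t : ℝ) :
    Uc U (c, nxt Γ T U c t) * nt Γ T U c t * KK Γ t (nxt Γ T U c t) =
      KK Γ (nxt Γ T U c t) t * Uc U (c, t) := by
  obtain ⟨a1, a2, -⟩ := h.nxt_spec c t
  have hK := (h.curve.KK_pos_right a1 a2).ne'
  have e1 := h.eq_c hc t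
  have e2 := h.eq_t hc t
  set X := Ut U (c, nxt Γ T U c t) - L11 Γ (nxt Γ T U c t) t
  have e3 : nc Γ T U c t * KK Γ t (nxt Γ T U c t) = -Uc U (c, t) := by
    unfold nc
    field_simp
  have e4 : Uc U (c, nxt Γ T U c t) = -(X * nc Γ T U c t) := by linarith
  rw [e4]
  calc -(X * nc Γ T U c t) * nt Γ T U c t * KK Γ t (nxt Γ T U c t)
      = -((X * nt Γ T U c t) * (nc Γ T U c t * KK Γ t (nxt Γ T U c t))) := by ring
    _ = _ := by rw [e2, e3]; ring

lemma nt_pos {c : ℝ} (hc : c ∈ Ioo (0:ℝ) 1) (t : ℝ) : 0 < nt Γ T U c t := by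
  obtain ⟨a1, a2, -⟩ := h.nxt_spec c t
  have hK := h.curve.KK_pos_right a1 a2
  have hK' := h.curve.KK_pos_left a1 a2
  have e := h.invariance hc t
  have w1 := h.Uc_neg hc t
  have w2 := h.Uc_neg hc (nxt Γ T U c t)
  by_contra hneg
  push Not at hneg
  have k1 : 0 ≤ Uc U (c, nxt Γ T U c t) * nt Γ T U c t := mul_nonneg_of_nonpos_of_nonpos w2.le hneg
  have k2 : 0 ≤ Uc U (c, nxt Γ T U c t) * nt Γ T U c t * KK Γ t (nxt Γ T U c t) :=
    mul_nonneg k1 hK.le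
  have k3 : KK Γ (nxt Γ T U c t) t * Uc U (c, t) < 0 := mul_neg_of_pos_of_neg hK' w1
  linarith

lemma continuous_nxt {c : ℝ} (hc : c ∈ Ioo (0:ℝ) 1) : Continuous (nxt Γ T U c) :=
  continuous_iff_continuousAt.2 fun t => (h.hasDerivAt_nxt_t hc t).continuousAt

lemma cont_leaf {g : ℝ × ℝ → ℝ} (hg : ContinuousOn g (Rg T)) {c : ℝ} (hc : c ∈ Ioo (0:ℝ) 1) :
    Continuous fun t => g (t, nxt Γ T U c t) :=
  hg.comp_continuous (continuous_id.prodMk (h.continuous_nxt hc))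
    fun t => ⟨(h.nxt_spec c t).1, (h.nxt_spec c t).2.1⟩

lemma continuous_Uf {c : ℝ} (hc : c ∈ Ioo (0:ℝ) 1) : Continuous fun t => Uf U (c, t) :=
  continuous_slice h.continuousOn_Uf hc
lemma continuous_Ut {c : ℝ} (hc : c ∈ Ioo (0:ℝ) 1) : Continuous fun t => Ut U (c, t) :=
  continuous_slice h.continuousOn_Ut hc
lemma continuous_Uc {c : ℝ} (hc : c ∈ Ioo (0:ℝ) 1) : Continuous fun t => Uc U (c, t) :=
  continuous_slice h.continuousOn_Uc hc

lemma continuous_nt {c : ℝ} (hc : c ∈ Ioo (0:ℝ) 1) : Continuous (nt Γ T U c) := by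
  have k1 := h.cont_leaf (g := fun p => L11 Γ p.1 p.2) h.curve.cont_L11 hc
  have k2 := h.cont_leaf (g := fun p => KK Γ p.1 p.2) h.curve.cont_KK hc
  have k3 := h.continuous_Ut hc
  exact ((k1.add k3).neg).div₀ k2 fun t =>
    (h.curve.KK_pos_right (h.nxt_spec c t).1 (h.nxt_spec c t).2.1).ne'

lemma nxt_T {c : ℝ} (hc : c ∈ Ioo (0:ℝ) 1) : nxt Γ T U c T = nxt Γ T U c 0 + T := by
  simpa using h.nxt_per hc 0

lemma mxt_spec (c t : ℝ) : t < mxt Γ T U c t ∧ mxt Γ T U c t < t + T ∧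
    L1 Γ t (mxt Γ T U c t) = U c t := by
  have := h.curve.nx_spec t (-(U c t))
  rwa [neg_neg] at this

/-- the mirror of the next point is the previous one -/
lemma mxt_nxt {c : ℝ} (hc : c ∈ Ioo (0:ℝ) 1) (t : ℝ) :
    mxt Γ T U c (nxt Γ T U c t) = t + T := by
  obtain ⟨a1, a2, -⟩ := h.nxt_spec c t
  refine h.curve.nx_unique (by linarith) (by linarith) ?_
  rw [h.curve.L1_per_right, neg_neg]
  exact (h.feq' hc t).symm

lemma mxt_per {c : ℝ} (hc : c ∈ Ioo (0:ℝ) 1) (t : ℝ) :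
    mxt Γ T U c (t + T) = mxt Γ T U c t + T := by
  unfold mxt
  rw [h.per c hc, h.curve.nx_per]

lemma continuous_mxt {c : ℝ} (hc : c ∈ Ioo (0:ℝ) 1) : Continuous (mxt Γ T U c) := by
  have k : Continuous fun t : ℝ => ((t, -(Uf U (c, t))) : ℝ × ℝ) :=
    continuous_id.prodMk (h.continuous_Uf hc).neg
  exact h.curve.contDiff_nx.continuous.comp k

/-- pointwise identity behind the Hopf inequality -/
lemma pointwise {c : ℝ} (hc : c ∈ Ioo (0:ℝ) 1) (t : ℝ) :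
    RR Γ T U c t = Ut U (c, t) * Uc U (c, t) -
      (Ut U (c, nxt Γ T U c t) * Uc U (c, nxt Γ T U c t)) * nt Γ T U c t - df Γ T U c t := by
  obtain ⟨a1, a2, -⟩ := h.nxt_spec c t
  have hK := (h.curve.KK_pos_right a1 a2).ne'
  have hK' := (h.curve.KK_pos_left a1 a2).ne'
  have hn := (h.nt_pos hc t).ne'
  have w1 := (h.Uc_neg hc t).ne
  have w2 := (h.Uc_neg hc (nxt Γ T U c t)).ne
  have e1 := h.eq_t hc t
  have e2 := h.invariance hc t
  have e3 : nt Γ T U c t * KK Γ t (nxt Γ T U c t) =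
      -(L11 Γ t (nxt Γ T U c t) + Ut U (c, t)) := by
    unfold nt; field_simp
  unfold RR df Idens
  set s := nxt Γ T U c t
  set n := nt Γ T U c t
  set K := KK Γ t s
  set K' := KK Γ s t
  set p := Ut U (c, t)
  set q := Ut U (c, s)
  set w := Uc U (c, t)
  set v := Uc U (c, s)
  have f1 : L11 Γ t s = -p - n * K := by linarith
  have f2 : L11 Γ s t * n = q * n - K' := by linarith
  have f3 : K' = v * n * K / w := by field_simp; linarith
  have f4 : L11 Γ s t = q - K' / n := by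
    field_simp
    linarith
  rw [f1, f4, f3]
  field_simp
  ring

lemma continuous_df {c : ℝ} (hc : c ∈ Ioo (0:ℝ) 1) : Continuous (df Γ T U c) := by
  have k1 := h.cont_leaf (g := fun p => KK Γ p.2 p.1) h.curve.cont_KK' hc
  have k2 := h.continuous_Uc hc
  have k3 := k2.comp (h.continuous_nxt hc)
  exact (k1.mul ((k2.sub k3).pow 2)).div₀ k3.neg fun t => by
    have := h.Uc_neg hc (nxt Γ T U c t)
    exact (by linarith : 0 < -Uc U (c, nxt Γ T U c t)).ne'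

lemma df_nonneg {c : ℝ} (hc : c ∈ Ioo (0:ℝ) 1) (t : ℝ) : 0 ≤ df Γ T U c t := by
  obtain ⟨a1, a2, -⟩ := h.nxt_spec c t
  have hK' := h.curve.KK_pos_left a1 a2
  have w2 : 0 < -Uc U (c, nxt Γ T U c t) := by linarith [h.Uc_neg hc (nxt Γ T U c t)]
  unfold df
  positivity

/-- The Hopf identity on a leaf. -/
theorem leaf_identity {c : ℝ} (hc : c ∈ Ioo (0:ℝ) 1) :
    ∫ t in (0)..T, RR Γ T U c t = -∫ t in (0)..T, df Γ T U c t := by
  have ii : ∀ {g : ℝ → ℝ}, Continuous g → IntervalIntegrable g volume 0 T :=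
    fun hg => hg.intervalIntegrable _ _
  have cp := (h.continuous_Ut hc).mul (h.continuous_Uc hc)
  have cq : Continuous fun t => (Ut U (c, nxt Γ T U c t) * Uc U (c, nxt Γ T U c t)) *
      nt Γ T U c t := (cp.comp (h.continuous_nxt hc)).mul (h.continuous_nt hc)
  have h1 := integral_comp_tau (F := fun t => Ut U (c, t) * Uc U (c, t)) (h.hasDerivAt_nxt_t hc)
    (h.continuous_nt hc) (h.nxt_T hc) cp (fun t => by simp only [h.Ut_per hc, h.Uc_per hc])
  rw [intervalIntegral.integral_congr (fun t _ => h.pointwise hc t)]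
  have i1 : IntervalIntegrable (fun t => Ut U (c, t) * Uc U (c, t) -
      (Ut U (c, nxt Γ T U c t) * Uc U (c, nxt Γ T U c t)) * nt Γ T U c t) volume 0 T :=
    ii (cp.sub cq)
  have i2 : IntervalIntegrable (fun t => Ut U (c, t) * Uc U (c, t)) volume 0 T := ii cp
  rw [intervalIntegral.integral_sub i1 (ii (h.continuous_df hc)),
    intervalIntegral.integral_sub i2 (ii cq), h1, sub_self, zero_sub]

/-- The mirror density has the same integral. -/
theorem mirror_identity {c : ℝ} (hc : c ∈ Ioo (0:ℝ) 1) :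
    ∫ t in (0)..T, RM Γ T U c t = ∫ t in (0)..T, RR Γ T U c t := by
  have cm : Continuous (mxt Γ T U c) := h.continuous_mxt hc
  have hmem : ∀ t, (t, mxt Γ T U c t) ∈ Rg T := fun t => ⟨(h.mxt_spec c t).1, (h.mxt_spec c t).2.1⟩
  have cR : Continuous (RM Γ T U c) := by
    have k1 := cont_graph (g := fun p => Idens Γ p.1 p.2) h.curve.cont_Idens cm hmem
    have k2 := cont_graph (g := fun p => KK Γ p.1 p.2) h.curve.cont_KK cm hmem
    exact (k1.mul (h.continuous_Uc hc).neg).div₀ k2 fun t =>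
      (h.curve.KK_pos_right (h.mxt_spec c t).1 (h.mxt_spec c t).2.1).ne'
  have hper : ∀ t, RM Γ T U c (t + T) = RM Γ T U c t := by
    intro t
    unfold RM
    rw [h.mxt_per hc, h.Uc_per hc, h.curve.Idens_per_left, h.curve.Idens_per_right,
      h.curve.KK_per_left, h.curve.KK_per_right]
  rw [← integral_comp_tau (h.hasDerivAt_nxt_t hc) (h.continuous_nt hc) (h.nxt_T hc) cR hper]
  refine intervalIntegral.integral_congr fun t _ => ?_
  obtain ⟨a1, a2, -⟩ := h.nxt_spec c t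
  have hK := (h.curve.KK_pos_right a1 a2).ne'
  have hK' := (h.curve.KK_pos_left a1 a2).ne'
  have e2 := h.invariance hc t
  unfold RM RR
  rw [h.mxt_nxt hc, h.curve.Idens_per_right, h.curve.KK_per_right, Idens_swap]
  field_simp
  linear_combination (-Idens Γ t (nxt Γ T U c t)) * e2

end SSys

end Pool.Agent.MP_ae5b4e_an_ALT
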