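import Mathlib
import Pool.Agent.Lib.MP_ae5b4e_an_ALT.HopS

/-!
# MP_ae5b4e_an, project AT, module TotS

Integration of the Hopf inequality over the leaves between the curve and one leaf (the text of
`hopf/Total.lean` without the limit at the inner end), with an explicit bound.
-/

noncomputable section

namespace Pool.Agent.MP_ae5b4e_an_ALT

open Set Filter Topology Real MeasureTheory intervalIntegral
open scoped ContDiff
open Pool.Agent.MP_ae5b4e_an_total (integral_comp_tau surjective_of_shift)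
open Pool.Agent.MP_ae5b4e_an_hopf
open Pool.Agent.MP_ae5b4e_an_hopf.Sys (nt nc RR RM df Yt)

variable {Γ : ℝ → Fin 3 → ℝ} {T : ℝ} {U : ℝ → ℝ → ℝ}

namespace SSys

variable (h : SSys T Γ U)
include h

lemma nxt_mem (c t : ℝ) : nxt Γ T U c t ∈ Ioo t (t + T) :=
  ⟨(h.nxt_spec c t).1, (h.nxt_spec c t).2.1⟩
lemma mxt_mem (c t : ℝ) : mxt Γ T U c t ∈ Ioo t (t + T) :=
  ⟨(h.mxt_spec c t).1, (h.mxt_spec c t).2.1⟩

lemma continuous_Yt {c : ℝ} (hc : c ∈ Ioo (0:ℝ) 1) : Continuous (Yt Γ T U c) :=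
  Curve.cont_int (g := fun p => Idens Γ p.1 p.2) h.curve.cont_Idens (h.continuous_nxt hc)
    (h.continuous_mxt hc) (h.nxt_mem c) (h.mxt_mem c)

lemma hasDerivAt_mxt_c {c : ℝ} (hc : c ∈ Ioo (0:ℝ) 1) (t : ℝ) :
    HasDerivAt (fun c => mxt Γ T U c t) (Uc U (c, t) / KK Γ t (mxt Γ T U c t)) c := by
  refine (h.curve.hasDerivAt_nx_comp (hasDerivAt_const c t) (h.hasDerivAt_c hc t).neg).congr_deriv ?_
  unfold mxt Uf
  simp only [mul_zero, zero_add, neg_neg, Pi.neg_apply]

lemma hasDerivAt_Yt {c : ℝ} (hc : c ∈ Ioo (0:ℝ) 1) (t : ℝ) :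
    HasDerivAt (fun c => -Yt Γ T U c t) (RM Γ T U c t + RR Γ T U c t) c := by
  have hT := h.T_pos
  set a : ℝ := t + T / 2 with ha
  have ham : a ∈ Ioo t (t + T) := ⟨by linarith, by linarith⟩
  have cI := h.curve.cont_Idens
  have k1 := (h.curve.hasDerivAt_prim (g := fun p => Idens Γ p.1 p.2) cI ham
    (h.mxt_mem c t)).comp c (h.hasDerivAt_mxt_c hc t)
  have k2 := (h.curve.hasDerivAt_prim (g := fun p => Idens Γ p.1 p.2) cI ham
    (h.nxt_mem c t)).comp c (h.hasDerivAt_nxt_c hc t)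
  have k3 : (fun c => -Yt Γ T U c t) = -((((fun x => ∫ y in a..x, Idens Γ t y) ∘
      fun c => mxt Γ T U c t)) - ((fun x => ∫ y in a..x, Idens Γ t y) ∘
      fun c => nxt Γ T U c t)) := by
    funext c
    unfold Yt
    have i1 := h.curve.ii_line (g := fun p => Idens Γ p.1 p.2) cI ham (h.mxt_mem c t)
    have i2 := h.curve.ii_line (g := fun p => Idens Γ p.1 p.2) cI ham (h.nxt_mem c t)
    have := intervalIntegral.integral_interval_sub_left i1 i2
    simp only [Function.comp, Pi.neg_apply, Pi.sub_apply] at this ⊢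
    rw [← this]
  rw [k3]
  refine (k1.sub k2).neg.congr_deriv ?_
  unfold RM RR nc
  ring

lemma continuousOn_nxt : ContinuousOn (fun q : ℝ × ℝ => (q.2, nxt Γ T U q.1 q.2))
    (Ioo 0 1 ×ˢ univ) := by
  have k : ContinuousOn (fun q : ℝ × ℝ => (q.2, Uf U q)) (Ioo 0 1 ×ˢ univ) :=
    continuousOn_snd.prodMk h.continuousOn_Uf
  exact continuousOn_snd.prodMk (h.curve.contDiff_nx.continuous.comp_continuousOn k)

lemma continuousOn_mxt : ContinuousOn (fun q : ℝ × ℝ => (q.2, mxt Γ T U q.1 q.2))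
    (Ioo 0 1 ×ˢ univ) := by
  have k : ContinuousOn (fun q : ℝ × ℝ => (q.2, -Uf U q)) (Ioo 0 1 ×ˢ univ) :=
    continuousOn_snd.prodMk h.continuousOn_Uf.neg
  exact continuousOn_snd.prodMk (h.curve.contDiff_nx.continuous.comp_continuousOn k)

lemma continuousOn_RR : ContinuousOn (fun q : ℝ × ℝ => RR Γ T U q.1 q.2) (Ioo 0 1 ×ˢ univ) := by
  have m : MapsTo (fun q : ℝ × ℝ => (q.2, nxt Γ T U q.1 q.2)) (Ioo 0 1 ×ˢ univ) (Rg T) :=
    fun q _ => ⟨(h.nxt_mem q.1 q.2).1, (h.nxt_mem q.1 q.2).2⟩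
  have k1 := h.curve.cont_Idens.comp (h.continuousOn_nxt) m
  have k2 := h.curve.cont_KK.comp (h.continuousOn_nxt) m
  exact (k1.mul h.continuousOn_Uc.neg).div k2 fun q _ =>
    (h.curve.KK_pos_right (h.nxt_mem q.1 q.2).1 (h.nxt_mem q.1 q.2).2).ne'

lemma continuousOn_RM : ContinuousOn (fun q : ℝ × ℝ => RM Γ T U q.1 q.2) (Ioo 0 1 ×ˢ univ) := by
  have m : MapsTo (fun q : ℝ × ℝ => (q.2, mxt Γ T U q.1 q.2)) (Ioo 0 1 ×ˢ univ) (Rg T) :=
    fun q _ => ⟨(h.mxt_mem q.1 q.2).1, (h.mxt_mem q.1 q.2).2⟩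
  have k1 := h.curve.cont_Idens.comp (h.continuousOn_mxt) m
  have k2 := h.curve.cont_KK.comp (h.continuousOn_mxt) m
  exact (k1.mul h.continuousOn_Uc.neg).div k2 fun q _ =>
    (h.curve.KK_pos_right (h.mxt_mem q.1 q.2).1 (h.mxt_mem q.1 q.2).2).ne'

lemma leaf_nonpos {c : ℝ} (hc : c ∈ Ioo (0:ℝ) 1) :
    ∫ t in (0)..T, (RM Γ T U c t + RR Γ T U c t) ≤ 0 := by
  have i1 : IntervalIntegrable (RM Γ T U c) volume 0 T :=
    (continuous_slice h.continuousOn_RM hc).intervalIntegrable _ _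
  have i2 : IntervalIntegrable (RR Γ T U c) volume 0 T :=
    (continuous_slice h.continuousOn_RR hc).intervalIntegrable _ _
  rw [intervalIntegral.integral_add i1 i2, h.mirror_identity hc, h.leaf_identity hc]
  have := intervalIntegral.integral_nonneg h.T_pos.le (μ := volume) fun t _ => h.df_nonneg hc t
  linarith

lemma Y_mono {c₁ c₂ : ℝ} (h1 : 0 < c₁) (h12 : c₁ ≤ c₂) (h2 : c₂ < 1) :
    ∫ t in (0)..T, Yt Γ T U c₁ t ≤ ∫ t in (0)..T, Yt Γ T U c₂ t := by
  have hT := h.T_pos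
  have hc1 : c₁ ∈ Ioo (0:ℝ) 1 := ⟨h1, h12.trans_lt h2⟩
  have hc2 : c₂ ∈ Ioo (0:ℝ) 1 := ⟨h1.trans_le h12, h2⟩
  have hcont : ContinuousOn (fun q : ℝ × ℝ => RM Γ T U q.1 q.2 + RR Γ T U q.1 q.2)
      (Ioo 0 1 ×ˢ univ) := h.continuousOn_RM.add h.continuousOn_RR
  have hsub : Icc c₁ c₂ ×ˢ Icc 0 T ⊆ Ioo (0:ℝ) 1 ×ˢ univ := by
    intro q hq
    exact ⟨⟨by linarith [hq.1.1], by linarith [hq.1.2]⟩, mem_univ _⟩
  have hint : IntegrableOn (Function.uncurry fun c t => RM Γ T U c t + RR Γ T U c t)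
      (uIoc c₁ c₂ ×ˢ uIoc 0 T) := by
    have h3 : IntegrableOn (Function.uncurry fun c t => RM Γ T U c t + RR Γ T U c t)
        (Icc c₁ c₂ ×ˢ Icc 0 T) :=
      ContinuousOn.integrableOn_compact (isCompact_Icc.prod isCompact_Icc) (hcont.mono hsub)
    refine h3.mono_set ?_
    rw [uIoc_of_le h12, uIoc_of_le hT.le]
    exact prod_mono Ioc_subset_Icc_self Ioc_subset_Icc_self
  have e1 := MeasureTheory.intervalIntegral_intervalIntegral_swap hint
  have e2 : ∫ t in (0)..T, (∫ c in c₁..c₂, (RM Γ T U c t + RR Γ T U c t)) =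
      ∫ t in (0)..T, (Yt Γ T U c₁ t - Yt Γ T U c₂ t) := by
    refine intervalIntegral.integral_congr fun t _ => ?_
    have hd : ∀ c ∈ uIcc c₁ c₂, HasDerivAt (fun c => -Yt Γ T U c t)
        (RM Γ T U c t + RR Γ T U c t) c := by
      intro c hc
      rw [uIcc_of_le h12] at hc
      exact h.hasDerivAt_Yt ⟨by linarith [hc.1], by linarith [hc.2]⟩ t
    have hcc : ContinuousOn (fun c => RM Γ T U c t + RR Γ T U c t) (uIcc c₁ c₂) := by
      rw [uIcc_of_le h12]
      refine hcont.comp (f := fun c : ℝ => (c, t)) (by fun_prop) ?_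
      intro c hc
      exact ⟨⟨by linarith [hc.1], by linarith [hc.2]⟩, mem_univ _⟩
    show ∫ c in c₁..c₂, (RM Γ T U c t + RR Γ T U c t) = _
    rw [intervalIntegral.integral_eq_sub_of_hasDerivAt hd hcc.intervalIntegrable]
    ring
  have e3 : ∫ c in c₁..c₂, (∫ t in (0)..T, (RM Γ T U c t + RR Γ T U c t)) ≤ 0 := by
    -- continuity of the inner integral
    have hcI : ContinuousOn (fun c => ∫ t in (0)..T, (RM Γ T U c t + RR Γ T U c t))
        (Icc c₁ c₂) := by
      set pr : ℝ → ℝ := fun c => max c₁ (min c c₂) with hpr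
      have hprc : Continuous pr := by simp only [hpr]; fun_prop
      have hprm : ∀ c, pr c ∈ Ioo (0:ℝ) 1 := by
        intro c
        simp only [hpr]
        exact ⟨lt_max_of_lt_left h1, max_lt (by linarith) ((min_le_right _ _).trans_lt h2)⟩
      have hc : Continuous fun c => ∫ t in (0)..T, (RM Γ T U (pr c) t + RR Γ T U (pr c) t) := by
        refine intervalIntegral.continuous_parametric_intervalIntegral_of_continuous' ?_ 0 T
        refine hcont.comp_continuous (f := fun q : ℝ × ℝ => (pr q.1, q.2)) ?_ ?_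
        · exact (hprc.comp continuous_fst).prodMk continuous_snd
        · intro q
          exact ⟨hprm _, mem_univ _⟩
      refine hc.continuousOn.congr ?_
      intro c hc
      have : pr c = c := by
        simp only [hpr]
        rw [min_eq_left hc.2, max_eq_right hc.1]
      simp only [this]
    have hi : IntervalIntegrable (fun c => ∫ t in (0)..T, (RM Γ T U c t + RR Γ T U c t)) volume
        c₁ c₂ := by
      refine ContinuousOn.intervalIntegrable ?_
      rw [uIcc_of_le h12]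
      exact hcI
    have k := intervalIntegral.integral_mono_on h12 hi
      (intervalIntegrable_const (c := (0:ℝ)) (μ := volume)) (fun c hc =>
        h.leaf_nonpos (c := c) ⟨by linarith [hc.1], by linarith [hc.2]⟩)
    simpa using k
  have i1 : IntervalIntegrable (Yt Γ T U c₁) volume 0 T :=
    (h.continuous_Yt hc1).intervalIntegrable _ _
  have i2 : IntervalIntegrable (Yt Γ T U c₂) volume 0 T :=
    (h.continuous_Yt hc2).intervalIntegrable _ _
  rw [e1, e2, intervalIntegral.integral_sub i1 i2] at e3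
  linarith

lemma tendsto_nxt_zero (t : ℝ) : Tendsto (fun c => nxt Γ T U c t) (𝓝[>] 0) (𝓝 t) := by
  have hT := h.T_pos
  rw [Metric.tendsto_nhds]
  intro ε hε
  set δ := min (ε / 2) (T / 2) with hδ
  have hδ0 : 0 < δ := lt_min (by positivity) (by positivity)
  have hδ1 : δ ≤ ε / 2 := min_le_left _ _
  have hδ2 : δ ≤ T / 2 := min_le_right _ _
  have k1 := (h.lim0 t).eventually_gt_atTop (-L1 Γ t (t + δ))
  filter_upwards [k1] with c hc
  obtain ⟨a1, a2, a3⟩ := h.nxt_spec c t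
  have k2 : nxt Γ T U c t < t + δ := by
    refine ((h.curve.strictMono_L1 t).lt_iff_lt ⟨a1, a2⟩ ⟨by linarith, by linarith⟩).1 ?_
    show L1 Γ t _ < L1 Γ t (t + δ)
    rw [a3]
    linarith
  rw [Real.dist_eq, abs_of_pos (by linarith)]
  linarith

lemma tendsto_mxt_zero (t : ℝ) : Tendsto (fun c => mxt Γ T U c t) (𝓝[>] 0) (𝓝 (t + T)) := by
  have hT := h.T_pos
  rw [Metric.tendsto_nhds]
  intro ε hε
  set δ := min (ε / 2) (T / 2) with hδ
  have hδ0 : 0 < δ := lt_min (by positivity) (by positivity)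
  have hδ1 : δ ≤ ε / 2 := min_le_left _ _
  have hδ2 : δ ≤ T / 2 := min_le_right _ _
  have k1 := (h.lim0 t).eventually_gt_atTop (L1 Γ t (t + T - δ))
  filter_upwards [k1] with c hc
  obtain ⟨a1, a2, a3⟩ := h.mxt_spec c t
  have k2 : t + T - δ < mxt Γ T U c t := by
    refine ((h.curve.strictMono_L1 t).lt_iff_lt ⟨by linarith, by linarith⟩ ⟨a1, a2⟩).1 ?_
    show L1 Γ t (t + T - δ) < L1 Γ t _
    rw [a3]
    exact hc
  rw [Real.dist_eq, abs_of_neg (by linarith)]
  linarith


/-- The integral of the density over the strips is bounded by the integral between the two points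
of any leaf. -/
theorem strip_small (hW : ∀ y, Wr Γ y = 1) {c₀ : ℝ} (hc₀ : c₀ ∈ Ioo (0:ℝ) 1) :
    ∃ C, 0 ≤ C ∧ ∀ ε, 0 < ε → ε ≤ T / 2 →
    ∫ r in ε..(T - ε), (∫ t in (0)..T, Idens Γ t (t + r)) ≤
      (∫ t in (0)..T, Yt Γ T U c₀ t) + C * ε := by
  have hT := h.T_pos
  obtain ⟨C, hC0, hC⟩ := h.curve.Idens_bound hW
  refine ⟨2 * (C * T), by positivity, fun ε h0 h2 => ?_⟩
  have h1 : ε ≤ T - ε := by linarith
  have cI := h.curve.cont_Idens
  rw [strip_fubini (g := fun p => Idens Γ p.1 p.2) hT cI h0 h1]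
  have hSt : ∀ t, ∫ r in ε..(T - ε), Idens Γ t (t + r) =
      ∫ x in (t + ε)..(t + (T - ε)), Idens Γ t x := by
    intro t
    exact intervalIntegral.integral_comp_add_left (fun x => Idens Γ t x) t
  simp only [hSt]
  have ma : ∀ t, t + ε ∈ Ioo t (t + T) := fun t => ⟨by linarith, by linarith⟩
  have mb : ∀ t, t + (T - ε) ∈ Ioo t (t + T) := fun t => ⟨by linarith, by linarith⟩
  have cSt : Continuous fun t => ∫ x in (t + ε)..(t + (T - ε)), Idens Γ t x :=
    Curve.cont_int (g := fun p => Idens Γ p.1 p.2) cI (by fun_prop) (by fun_prop) ma mb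
  -- bound of integrals over short intervals
  have bI : ∀ t a b, a ∈ Ioo t (t + T) → b ∈ Ioo t (t + T) →
      |∫ x in a..b, Idens Γ t x| ≤ C * |b - a| := by
    intro t a b ha hb
    exact intervalIntegral.norm_integral_le_of_norm_le_const (f := fun x => Idens Γ t x)
      (C := C) (by
      intro x hx
      have hx' : x ∈ Ioo t (t + T) :=
        (convex_Ioo t (t + T)).ordConnected.uIcc_subset ha hb (uIoc_subset_uIcc hx)
      exact hC t x hx'.1 hx'.2)
  have key : ∀ c ∈ Ioo (0:ℝ) c₀, ∫ t in (0)..T, (∫ x in (t + ε)..(t + (T - ε)), Idens Γ t x) ≤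
      (∫ t in (0)..T, Yt Γ T U c₀ t) +
      ∫ t in (0)..T, (C * |nxt Γ T U c t - (t + ε)| + C * |mxt Γ T U c t - (t + (T - ε))|) := by
    intro c hc'
    have hc : c ∈ Ioo (0:ℝ) 1 := ⟨hc'.1, hc'.2.trans hc₀.2⟩
    have cn := h.continuous_nxt hc
    have cm := h.continuous_mxt hc
    have cE : Continuous fun t => C * |nxt Γ T U c t - (t + ε)| +
        C * |mxt Γ T U c t - (t + (T - ε))| := by fun_prop
    have cY := h.continuous_Yt hc
    have k : ∫ t in (0)..T, (∫ x in (t + ε)..(t + (T - ε)), Idens Γ t x) ≤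
        ∫ t in (0)..T, (Yt Γ T U c t + (C * |nxt Γ T U c t - (t + ε)| +
          C * |mxt Γ T U c t - (t + (T - ε))|)) := by
      refine intervalIntegral.integral_mono_on hT.le (cSt.intervalIntegrable _ _)
        ((cY.add cE).intervalIntegrable _ _) fun t _ => ?_
      have m1 := h.nxt_mem c t
      have m2 := h.mxt_mem c t
      have i1 := h.curve.ii_line (g := fun p => Idens Γ p.1 p.2) cI m1 (ma t)
      have i2 := h.curve.ii_line (g := fun p => Idens Γ p.1 p.2) cI (ma t) (mb t)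
      have i3 := h.curve.ii_line (g := fun p => Idens Γ p.1 p.2) cI (mb t) m2
      have e : Yt Γ T U c t = (∫ x in (nxt Γ T U c t)..(t + ε), Idens Γ t x) +
          (∫ x in (t + ε)..(t + (T - ε)), Idens Γ t x) +
          ∫ x in (t + (T - ε))..(mxt Γ T U c t), Idens Γ t x := by
        rw [intervalIntegral.integral_add_adjacent_intervals i1 i2,
          intervalIntegral.integral_add_adjacent_intervals (i1.trans i2) i3]
        rfl
      have b1 := (abs_le.1 (bI t _ _ m1 (ma t))).1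
      have b2 := (abs_le.1 (bI t _ _ (mb t) m2)).1
      rw [abs_sub_comm (t + ε)] at b1
      rw [e]
      linarith
    have i1 : IntervalIntegrable (Yt Γ T U c) volume 0 T := cY.intervalIntegrable _ _
    rw [intervalIntegral.integral_add i1 (cE.intervalIntegrable _ _)] at k
    have := h.Y_mono hc'.1 hc'.2.le hc₀.2
    linarith
  have hlim : Tendsto (fun c => ∫ t in (0)..T, (C * |nxt Γ T U c t - (t + ε)| +
      C * |mxt Γ T U c t - (t + (T - ε))|)) (𝓝[>] 0)
      (𝓝 (∫ t in (0)..T, (C * ε + C * ε))) := by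
    refine intervalIntegral.tendsto_integral_filter_of_dominated_convergence
      (fun _ => C * T + C * T) ?_ ?_ ?_ ?_
    · filter_upwards [Ioo_mem_nhdsGT (zero_lt_one' ℝ)] with c hc
      have cn := h.continuous_nxt hc
      have cm := h.continuous_mxt hc
      exact (by fun_prop : Continuous fun t => C * |nxt Γ T U c t - (t + ε)| +
        C * |mxt Γ T U c t - (t + (T - ε))|).aestronglyMeasurable
    · refine Eventually.of_forall fun c => Eventually.of_forall fun t _ => ?_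
      have m1 := h.nxt_mem c t
      have m2 := h.mxt_mem c t
      have b1 : |nxt Γ T U c t - (t + ε)| ≤ T := by
        rw [abs_le]; constructor <;> linarith [m1.1, m1.2]
      have b2 : |mxt Γ T U c t - (t + (T - ε))| ≤ T := by
        rw [abs_le]; constructor <;> linarith [m2.1, m2.2]
      rw [norm_eq_abs, abs_of_nonneg (by positivity)]
      exact add_le_add (mul_le_mul_of_nonneg_left b1 hC0) (mul_le_mul_of_nonneg_left b2 hC0)
    · exact intervalIntegrable_const
    · refine Eventually.of_forall fun t _ => ?_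
      have k1 := (((h.tendsto_nxt_zero t).sub_const (t + ε)).abs).const_mul C
      have k2 := (((h.tendsto_mxt_zero t).sub_const (t + (T - ε))).abs).const_mul C
      have e1 : |t - (t + ε)| = ε := by
        rw [sub_add_cancel_left, abs_neg, abs_of_pos h0]
      have e2 : |t + T - (t + (T - ε))| = ε := by
        have : t + T - (t + (T - ε)) = ε := by ring
        rw [this, abs_of_pos h0]
      rw [e1] at k1
      rw [e2] at k2
      exact k1.add k2
  have hfin : ∫ t in (0)..T, (∫ x in (t + ε)..(t + (T - ε)), Idens Γ t x) ≤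
      (∫ t in (0)..T, Yt Γ T U c₀ t) + ∫ t in (0)..T, (C * ε + C * ε) := by
    refine ge_of_tendsto (hlim.const_add (∫ t in (0)..T, Yt Γ T U c₀ t)) ?_
    filter_upwards [Ioo_mem_nhdsGT hc₀.1] with c hc
    exact key c hc
  rw [intervalIntegral.integral_const, smul_eq_mul, sub_zero] at hfin
  linarith

/-- **The quantitative Hopf inequality.** -/
theorem total_quant (hW : ∀ y, Wr Γ y = 1) {c₀ : ℝ} (hc₀ : c₀ ∈ Ioo (0:ℝ) 1) {ε : ℝ}
    (h0 : 0 < ε) (h2 : ε ≤ T / 2) :
    ∫ r in ε..(T - ε), (∫ t in (0)..T, Qdens Γ t (t + r)) ≤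
      50 * ∫ t in (0)..T, Yt Γ T U c₀ t := by
  have hT := h.T_pos
  obtain ⟨C1, hC1, b1⟩ := h.curve.strip_bound hW
  obtain ⟨C2, hC2, b2⟩ := h.strip_small hW hc₀
  have cQ := h.curve.cont_Qdens
  set Y : ℝ := ∫ t in (0)..T, Yt Γ T U c₀ t with hY
  set M : ℝ → ℝ := fun r => ∫ t in (0)..T, Qdens Γ t (t + r) with hM
  have hMnn : ∀ r, 0 ≤ M r := fun r =>
    intervalIntegral.integral_nonneg hT.le fun t _ => Qdens_nonneg t (t + r)
  have small : ∀ ε, 0 < ε → ε ≤ T / 2 →
      ∫ r in ε..(T - ε), M r ≤ 50 * Y + (50 * C2 + C1) * ε := by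
    intro ε h0 h2
    have k1 := b1 ε h0 h2
    have k2 := b2 ε h0 h2
    have : (50 * C2 + C1) * ε = 50 * (C2 * ε) + C1 * ε := by ring
    rw [this]
    linarith
  have mono : ∀ η, 0 < η → η ≤ ε → ∫ r in ε..(T - ε), M r ≤ 50 * Y + (50 * C2 + C1) * η := by
    intro η h3 h4
    refine le_trans ?_ (small η h3 (h4.trans h2))
    have hii := strip_ii (g := fun p => Qdens Γ p.1 p.2) cQ h3 (by linarith : η ≤ T - η)
    refine intervalIntegral.integral_mono_interval h4 (by linarith) (by linarith)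
      (Eventually.of_forall fun r => hMnn r) hii
  have lim : Tendsto (fun η : ℝ => 50 * Y + (50 * C2 + C1) * η) (𝓝[>] 0) (𝓝 (50 * Y)) := by
    have : Tendsto (fun η : ℝ => 50 * Y + (50 * C2 + C1) * η) (𝓝 0)
        (𝓝 (50 * Y + (50 * C2 + C1) * 0)) := Continuous.tendsto (by fun_prop) 0
    rw [mul_zero, add_zero] at this
    exact this.mono_left nhdsWithin_le_nhds
  refine ge_of_tendsto lim ?_
  filter_upwards [Ioo_mem_nhdsGT h0] with η hη
  exact mono η hη.1 hη.2.le

/-- the integral between the two points of a leaf -/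
theorem Yt_le {c₀ : ℝ} (hc₀ : c₀ ∈ Ioo (0:ℝ) 1) {C η : ℝ}
    (hC : ∀ t ∈ Icc 0 T, ∀ x ∈ uIcc (nxt Γ T U c₀ t) (mxt Γ T U c₀ t), |Idens Γ t x| ≤ C)
    (hη : ∀ t ∈ Icc 0 T, |mxt Γ T U c₀ t - nxt Γ T U c₀ t| ≤ η) :
    ∫ t in (0)..T, Yt Γ T U c₀ t ≤ C * η * T := by
  have hT := h.T_pos
  have b : ∀ t ∈ Icc 0 T, Yt Γ T U c₀ t ≤ C * η := by
    intro t ht
    have k := intervalIntegral.norm_integral_le_of_norm_le_const (a := nxt Γ T U c₀ t)
      (b := mxt Γ T U c₀ t) (f := fun x => Idens Γ t x) (C := C)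
      (fun x hx => hC t ht x (uIoc_subset_uIcc hx))
    have hC0 : 0 ≤ C := (abs_nonneg _).trans (hC t ht _ left_mem_uIcc)
    calc Yt Γ T U c₀ t ≤ |Yt Γ T U c₀ t| := le_abs_self _
      _ ≤ C * |mxt Γ T U c₀ t - nxt Γ T U c₀ t| := k
      _ ≤ C * η := mul_le_mul_of_nonneg_left (hη t ht) hC0
  have k := intervalIntegral.integral_mono_on hT.le
    ((h.continuous_Yt hc₀).intervalIntegrable 0 T)
    (intervalIntegrable_const (c := C * η) (μ := volume)) b
  rw [intervalIntegral.integral_const, smul_eq_mul, sub_zero] at k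
  linarith

/-- **The quantitative form of the theorem for totally integrable systems**: if the two points of
one leaf on each tangent line are close (in terms of the second tangency points), then the
nonnegative density `Qdens` is small in the mean. -/
theorem total_quant' (hW : ∀ y, Wr Γ y = 1) {c₀ : ℝ} (hc₀ : c₀ ∈ Ioo (0:ℝ) 1) {C η : ℝ}
    (hC : ∀ t ∈ Icc 0 T, ∀ x ∈ uIcc (nxt Γ T U c₀ t) (mxt Γ T U c₀ t), |Idens Γ t x| ≤ C)
    (hη : ∀ t ∈ Icc 0 T, |mxt Γ T U c₀ t - nxt Γ T U c₀ t| ≤ η) {ε : ℝ}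
    (h0 : 0 < ε) (h2 : ε ≤ T / 2) :
    ∫ r in ε..(T - ε), (∫ t in (0)..T, Qdens Γ t (t + r)) ≤ 50 * (C * η * T) :=
  (h.total_quant hW hc₀ h0 h2).trans
    (mul_le_mul_of_nonneg_left (h.Yt_le hc₀ hC hη) (by norm_num))

end SSys

end Pool.Agent.MP_ae5b4e_an_ALT
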