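import Mathlib
import Pool.Agent.Lib.MP_ae5b4e_an_ALT.TotS
import Pool.Agent.Lib.MP_ae5b4e_an_RIG.GGau

/-!
# MP_ae5b4e_an, project AT, module OfSol

A smooth solution in its normal form is a system `SSys`; the quantitative Hopf inequality for it.
-/

noncomputable section

namespace Pool.Agent.MP_ae5b4e_an_ALT

open Set Filter Topology Real MeasureTheory intervalIntegral
open scoped ContDiff
open Pool.Agent.MP_ae5b4e_an_hopf
open Pool.Agent.MP_ae5b4e_an_RG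
open Pool.Agent.MP_ae5b4e_an_RIG

/-- a smooth `LSys` with `κ = 0` is an `SSys` -/
theorem SSys.of_lsys {T : ℝ} {Γ : ℝ → Fin 3 → ℝ} {U : ℝ → ℝ → ℝ} (h : LSys T Γ U (fun _ => 0))
    (hs : ContDiffOn ℝ ∞ (fun q : ℝ × ℝ => U q.1 q.2) (Ioo 0 1 ×ˢ univ))
    (hm : ∀ c ∈ Ioo (0:ℝ) 1, ∀ t, deriv (fun r => U r t) c < 0) : SSys T Γ U where
  curve := h.curve
  smooth := hs
  per := h.per
  mono := hm
  lim0 := h.lim0
  feq := fun c hc t s h1 h2 h3 => by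
    have := h.feq c hc t s h1 h2 h3
    rwa [zero_add] at this

/-- the leaves in the normal form are smooth and strictly decreasing in the parameter -/
theorem rU_smooth {γ : ConvexCurve} {U : ℝ → ℝ → ℝ} {κ σ lam r m : ℝ → ℝ} (h : Sol γ U κ)
    (hs : ContDiffOn ℝ ∞ (fun q : ℝ × ℝ => U q.1 q.2) (Ioo 0 1 ×ˢ univ))
    (hm : ∀ c ∈ Ioo (0:ℝ) 1, ∀ t, deriv (fun r => U r t) c < 0)
    (hN : Normal γ κ σ lam r m) :
    ContDiffOn ℝ ∞ (fun q : ℝ × ℝ => rU κ σ U q.1 q.2) (Ioo 0 1 ×ˢ univ) ∧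
      ∀ c ∈ Ioo (0:ℝ) 1, ∀ t, deriv (fun r => rU κ σ U r t) c < 0 := by
  have hκs : ContDiff ℝ ∞ κ := h.lsys.smooth_κ
  have hσ := hN.smooth_σ
  have hσ' : ContDiff ℝ ∞ (deriv σ) := (contDiff_infty_iff_deriv.1 hσ).2
  refine ⟨?_, fun c hc x => ?_⟩
  · have k1 : ContDiffOn ℝ ∞ (fun q : ℝ × ℝ => U q.1 (σ q.2)) (Ioo 0 1 ×ˢ univ) := by
      refine hs.comp (f := fun q : ℝ × ℝ => (q.1, σ q.2))
        (contDiff_fst.prodMk (hσ.comp contDiff_snd)).contDiffOn ?_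
      rintro q ⟨hq, -⟩
      exact ⟨hq, mem_univ _⟩
    have k2 : ContDiff ℝ ∞ (fun q : ℝ × ℝ => κ (σ q.2) / 2) :=
      (hκs.comp (hσ.comp contDiff_snd)).div_const 2
    have k3 : ContDiff ℝ ∞ (fun q : ℝ × ℝ => deriv σ q.2) := hσ'.comp contDiff_snd
    exact k3.contDiffOn.mul (k1.sub k2.contDiffOn)
  · have h1 : (c, σ x) ∈ Ioo (0:ℝ) 1 ×ˢ (univ : Set ℝ) := ⟨hc, mem_univ _⟩
    have h2 : ContDiffAt ℝ ∞ (fun q : ℝ × ℝ => U q.1 q.2) (c, σ x) :=
      hs.contDiffAt ((isOpen_Ioo.prod isOpen_univ).mem_nhds h1)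
    have h3 : DifferentiableAt ℝ (fun s : ℝ => U s (σ x)) c := by
      have := (h2.differentiableAt (by simp)).comp c (f := fun s : ℝ => (s, σ x))
        (differentiableAt_id.prodMk (differentiableAt_const _))
      exact this
    have h4 := ((h3.hasDerivAt.sub_const (κ (σ x) / 2)).const_mul (deriv σ x)).deriv
    have h5 : deriv (fun s => rU κ σ U s x) c = deriv σ x * deriv (fun s => U s (σ x)) c := h4
    rw [h5]
    exact mul_neg_of_pos_of_neg (hN.pos_σ x) (hm c hc (σ x))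

/-- a smooth solution in its normal form -/
theorem ssys_of_sol {γ : ConvexCurve} {U : ℝ → ℝ → ℝ} {κ σ lam r m : ℝ → ℝ} (h : Sol γ U κ)
    (hs : ContDiffOn ℝ ∞ (fun q : ℝ × ℝ => U q.1 q.2) (Ioo 0 1 ×ˢ univ))
    (hm : ∀ c ∈ Ioo (0:ℝ) 1, ∀ t, deriv (fun r => U r t) c < 0)
    (hN : Normal γ κ σ lam r m) : SSys 1 (lift γ σ lam) (rU κ σ U) :=
  SSys.of_lsys (Normal.lsys h hN) (rU_smooth h hs hm hN).1 (rU_smooth h hs hm hN).2

/-- the coordinates of the leaves of a solution are positive in the normal form -/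
theorem SSys.pos_of_simple {T : ℝ} {Γ : ℝ → Fin 3 → ℝ} {U : ℝ → ℝ → ℝ} (h : SSys T Γ U)
    (hne : ∀ c ∈ Ioo (0:ℝ) 1, ∀ t, U c t ≠ 0) : ∀ c ∈ Ioo (0:ℝ) 1, ∀ t, 0 < U c t := by
  intro c hc t
  by_contra hneg
  push Not at hneg
  have e1 : ∀ᶠ s in 𝓝[>] (0:ℝ), 0 < U s t := (h.lim0 t).eventually_gt_atTop _
  have e2 : ∀ᶠ s in 𝓝[>] (0:ℝ), s ∈ Ioo (0:ℝ) 1 := Ioo_mem_nhdsGT one_pos
  obtain ⟨a, ha1, ha2⟩ := (e1.and e2).exists
  have hcont : ContinuousOn (fun c => Uf U (c, t)) (Ioo 0 1) := fun c hc =>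
    (h.hasDerivAt_c hc t).continuousAt.continuousWithinAt
  obtain ⟨s, hs, hs'⟩ := isPreconnected_Ioo.intermediate_value hc ha2 hcont
    (show (0:ℝ) ∈ Icc _ _ from ⟨hneg, ha1.le⟩)
  exact hne s hs t hs'

/-- a leaf meets each tangent line in two different points -/
theorem sol_two {γ : ConvexCurve} {U : ℝ → ℝ → ℝ} {κ : ℝ → ℝ} (h : Sol γ U κ) {c : ℝ}
    (hc : c ∈ Ioo (0:ℝ) 1) (s : ℝ) : U c s ≠ κ s / 2 := by
  intro he
  obtain ⟨t, rfl⟩ := h.lsys.surj_nxt hc s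
  obtain ⟨hts, hst, hL⟩ := h.lsys.nxt_spec c t
  have hC := γ.isCurve
  have n1 := (hC.dd_pos_right hts hst).ne'
  have n2 := (hC.dd_pos_left hts hst).ne'
  have h1 := γ.pt_inter n1 n2 hL
  have h2 := h.lsys.feq' hc t
  have h3 : U c (nxt γ.Γ γ.T U c t) = -L1 γ.Γ (nxt γ.Γ γ.T U c t) t := by linarith
  obtain ⟨n, hn⟩ := h.simple c hc t (nxt γ.Γ γ.T U c t) (by rw [h3, h1])
  have hT := γ.T_pos
  have h6 : 0 < (n:ℝ) * γ.T := by linarith
  have h7 : (n:ℝ) * γ.T < 1 * γ.T := by linarith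
  have h8 : (0:ℝ) < n := by
    by_contra hneg
    push Not at hneg
    have := mul_nonpos_of_nonpos_of_nonneg hneg hT.le
    linarith
  have h9 : (n:ℝ) < 1 := lt_of_mul_lt_mul_right h7 hT.le
  have h10 : (0:ℤ) < n := by exact_mod_cast h8
  have h11 : n < 1 := by exact_mod_cast h9
  omega

/-- the coordinates of the leaves are positive in the normal form -/
theorem rU_pos {γ : ConvexCurve} {U : ℝ → ℝ → ℝ} {κ σ lam r m : ℝ → ℝ} (h : Sol γ U κ)
    (hN : Normal γ κ σ lam r m) {c : ℝ} (hc : c ∈ Ioo (0:ℝ) 1) (x : ℝ) :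
    0 < rU κ σ U c x := by
  have hg := Normal.lsys h hN
  by_contra hneg
  push Not at hneg
  have e1 : ∀ᶠ s in 𝓝[>] (0:ℝ), 0 < rU κ σ U s x := (hg.lim0 x).eventually_gt_atTop _
  have e2 : ∀ᶠ s in 𝓝[>] (0:ℝ), s ∈ Ioo (0:ℝ) 1 := Ioo_mem_nhdsGT one_pos
  obtain ⟨a, ha1, ha2⟩ := (e1.and e2).exists
  have hcont : ContinuousOn (fun c => rU κ σ U c x) (Ioo 0 1) :=
    hg.cont.comp (f := fun c : ℝ => (c, x)) (by fun_prop) fun c hc => ⟨hc, mem_univ _⟩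
  obtain ⟨s, hs, hs'⟩ := isPreconnected_Ioo.intermediate_value hc ha2 hcont
    (show (0:ℝ) ∈ Icc _ _ from ⟨hneg, ha1.le⟩)
  have hs'' : deriv σ x * (U s (σ x) - κ (σ x) / 2) = 0 := hs'
  rcases mul_eq_zero.1 hs'' with h0 | h0
  · exact (hN.pos_σ x).ne' h0
  · exact sol_two h hs (σ x) (by linarith)

/-- Some leaf is thin: on each tangent line, the second tangency points `y` and `z` of its two
points satisfy `z - y ≤ η` (in the normal parameter). -/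
def Thin (γ : ConvexCurve) (U : ℝ → ℝ → ℝ) (κ σ : ℝ → ℝ) (η : ℝ) : Prop :=
  ∃ c ∈ Ioo (0:ℝ) 1, ∀ x y z, x < y → y < x + 1 → x < z → z < x + 1 →
    det3 (γ.hvec (σ x) (U c (σ x))) (γ.Γ (σ y)) (deriv γ.Γ (σ y)) = 0 →
    det3 (γ.hvec (σ x) (κ (σ x) - U c (σ x))) (γ.Γ (σ z)) (deriv γ.Γ (σ z)) = 0 → z - y ≤ η

/-- the tangency points in the normal form -/
theorem thin_nxt {γ : ConvexCurve} {U : ℝ → ℝ → ℝ} {κ σ lam r m : ℝ → ℝ} (h : Sol γ U κ)
    (hN : Normal γ κ σ lam r m) {η : ℝ} (hT : Thin γ U κ σ η) :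
    ∃ c ∈ Ioo (0:ℝ) 1, ∀ x, nxt (lift γ σ lam) 1 (rU κ σ U) c x <
      mxt (lift γ σ lam) 1 (rU κ σ U) c x ∧
      mxt (lift γ σ lam) 1 (rU κ σ U) c x - nxt (lift γ σ lam) 1 (rU κ σ U) c x ≤ η := by
  have hg := Normal.lsys h hN
  have hC := γ.isCurve
  have hσd : ∀ x, HasDerivAt σ (deriv σ x) x := fun x =>
    (hN.smooth_σ.differentiable (by simp) x).hasDerivAt
  have hld : ∀ x, HasDerivAt lam (lam x * (κ (σ x) / 2) * deriv σ x) x := fun x => by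
    rw [← hN.eq_lam x]
    exact (hN.smooth_lam.differentiable (by simp) x).hasDerivAt
  have hσm : StrictMono σ := strictMono_of_deriv_pos hN.pos_σ
  have hlt : ∀ x y, x < y → y < x + 1 → σ x < σ y ∧ σ y < σ x + γ.T := by
    intro x y h1 h2
    refine ⟨hσm h1, ?_⟩
    rw [← hN.per_σ]
    exact hσm h2
  have hdG : deriv (lift γ σ lam) = fun x => (lam x * deriv σ x) •
      ((κ (σ x) / 2) • γ.Γ (σ x) + deriv γ.Γ (σ x)) := by
    funext x
    apply HasDerivAt.deriv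
    have k2 := (hC.hd0 (σ x)).scomp x (hσd x)
    refine ((hld x).smul k2).congr_deriv ?_
    funext i
    simp only [Function.comp, Pi.add_apply, Pi.smul_apply, smul_eq_mul]
    ring
  have hdd : ∀ x y, dd (lift γ σ lam) x y =
      lam x * lam y * (lam y * deriv σ y) * dd γ.Γ (σ x) (σ y) := by
    intro x y
    unfold dd
    rw [hdG]
    exact det3_lin _ _ _ _ _ _ _
  have hddx : ∀ x y, ddx (lift γ σ lam) x y = (lam x * deriv σ x) * lam y * (lam y * deriv σ y) *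
      ((κ (σ x) / 2) * dd γ.Γ (σ x) (σ y) + ddx γ.Γ (σ x) (σ y)) := by
    intro x y
    unfold ddx dd
    rw [hdG]
    unfold lift det3
    simp only [Pi.smul_apply, Pi.add_apply, smul_eq_mul]
    ring
  -- the point with the coordinate `w` of the tangent line at `x` is on the tangent line at `y`
  have key : ∀ x y v w, x < y → y < x + 1 → L1 (lift γ σ lam) x y = -v →
      v = deriv σ x * (w - κ (σ x) / 2) →
      det3 (γ.hvec (σ x) w) (γ.Γ (σ y)) (deriv γ.Γ (σ y)) = 0 := by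
    intro x y v w h1 h2 h3 h4
    obtain ⟨k1, k2⟩ := hlt x y h1 h2
    have hn := (hC.dd_pos_right k1 k2).ne'
    have a1 := (hN.pos_lam x).ne'
    have a2 := (hN.pos_lam y).ne'
    have a3 := (hN.pos_σ y).ne'
    have a4 := (hN.pos_σ x).ne'
    have h5 : ddx (lift γ σ lam) x y = -v * dd (lift γ σ lam) x y := by
      unfold L1 at h3
      rwa [div_eq_iff] at h3
      rw [hdd]
      exact mul_ne_zero (mul_ne_zero (mul_ne_zero a1 a2) (mul_ne_zero a2 a3)) hn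
    rw [hdd, hddx, h4] at h5
    have h6 : (lam x * lam y * (lam y * deriv σ y) * deriv σ x) *
        (w * dd γ.Γ (σ x) (σ y) + ddx γ.Γ (σ x) (σ y)) = 0 := by linear_combination h5
    have h7 : w * dd γ.Γ (σ x) (σ y) + ddx γ.Γ (σ x) (σ y) = 0 := by
      rcases mul_eq_zero.1 h6 with h | h
      · exact absurd h (mul_ne_zero (mul_ne_zero (mul_ne_zero a1 a2) (mul_ne_zero a2 a3)) a4)
      · exact h
    rw [γ.hvec_eq, ← h7]
    unfold dd ddx det3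
    simp only [Pi.smul_apply, Pi.add_apply, smul_eq_mul]
    ring
  obtain ⟨c, hc, hT⟩ := hT
  refine ⟨c, hc, fun x => ?_⟩
  obtain ⟨s1, s2, s3⟩ := hg.curve.nx_spec x (rU κ σ U c x)
  obtain ⟨t1, t2, t3⟩ := hg.curve.nx_spec x (-(rU κ σ U c x))
  refine ⟨hg.curve.nx_strictAnti x (by linarith [rU_pos h hN hc x]), ?_⟩
  refine hT x _ _ s1 s2 t1 t2 (key x _ _ _ s1 s2 s3 rfl) (key x _ _ _ t1 t2 t3 ?_)
  unfold rU
  ring

end Pool.Agent.MP_ae5b4e_an_ALT
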